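import Pool.Agent.Run7.h851.T.Iface

/-! T-F3 (numerical value of the limits) (port of `Pool/Agent/Dim7/F346.lean`, helper228). -/

namespace Pool.Agent.Run7.h228.T

open Pool.Agent.Run7.h851.T

private lemma f3_i4 : 1617879 / 100000 ≤ Ifl 4 200 (1 / 50) (4 / 3) := by
  decide +kernel

private lemma f3_a : ∑ j ∈ Finset.Icc 1 200, It 4 j (1 / 50) (4 / 3) ≤ 124177 / 4000 := by
  decide +kernel

private lemma f3_u0 : ∑ j ∈ Finset.Icc 1 300, (1 / 2 * It 144 j (1 / 50) 144 + 3 / 2 * It 48 j (1 / 50) 144)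
    ≤ 1064496 / 25 := by
  decide +kernel

private lemma f3_u1 : ∑ j ∈ Finset.Icc 301 600, (1 / 2 * It 144 j (1 / 50) 144 + 3 / 2 * It 48 j (1 / 50) 144)
    ≤ 198767 / 50 := by
  decide +kernel

private lemma f3_u2 : ∑ j ∈ Finset.Icc 601 900, (1 / 2 * It 144 j (1 / 50) 144 + 3 / 2 * It 48 j (1 / 50) 144)
    ≤ 50668 / 25 := by
  decide +kernel

private lemma f3_u3 : ∑ j ∈ Finset.Icc 901 1200, (1 / 2 * It 144 j (1 / 50) 144 + 3 / 2 * It 48 j (1 / 50) 144)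
    ≤ 31239 / 25 := by
  decide +kernel

private lemma f3_u4 : ∑ j ∈ Finset.Icc 1201 1500, (1 / 2 * It 144 j (1 / 50) 144 + 3 / 2 * It 48 j (1 / 50) 144)
    ≤ 41993 / 50 := by
  decide +kernel

private lemma f3_u5 : ∑ j ∈ Finset.Icc 1501 1800, (1 / 2 * It 144 j (1 / 50) 144 + 3 / 2 * It 48 j (1 / 50) 144)
    ≤ 59389 / 100 := by
  decide +kernel

private lemma f3_u6 : ∑ j ∈ Finset.Icc 1801 2100, (1 / 2 * It 144 j (1 / 50) 144 + 3 / 2 * It 48 j (1 / 50) 144)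
    ≤ 10882 / 25 := by
  decide +kernel

private lemma f3_u7 : ∑ j ∈ Finset.Icc 2101 2400, (1 / 2 * It 144 j (1 / 50) 144 + 3 / 2 * It 48 j (1 / 50) 144)
    ≤ 32883 / 100 := by
  decide +kernel

private lemma f3_u8 : ∑ j ∈ Finset.Icc 2401 2700, (1 / 2 * It 144 j (1 / 50) 144 + 3 / 2 * It 48 j (1 / 50) 144)
    ≤ 25499 / 100 := by
  decide +kernel

private lemma f3_u9 : ∑ j ∈ Finset.Icc 2701 3000, (1 / 2 * It 144 j (1 / 50) 144 + 3 / 2 * It 48 j (1 / 50) 144)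
    ≤ 19961 / 100 := by
  decide +kernel

private lemma f3_u10 : ∑ j ∈ Finset.Icc 3001 3300, (1 / 2 * It 144 j (1 / 50) 144 + 3 / 2 * It 48 j (1 / 50) 144)
    ≤ 15653 / 100 := by
  decide +kernel

private lemma f3_u11 : ∑ j ∈ Finset.Icc 3301 3600, (1 / 2 * It 144 j (1 / 50) 144 + 3 / 2 * It 48 j (1 / 50) 144)
    ≤ 3063 / 25 := by
  decide +kernel

private lemma f3_u12 : ∑ j ∈ Finset.Icc 3601 3900, (1 / 2 * It 144 j (1 / 50) 144 + 3 / 2 * It 48 j (1 / 50) 144)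
    ≤ 9541 / 100 := by
  decide +kernel

private lemma f3_u13 : ∑ j ∈ Finset.Icc 3901 4200, (1 / 2 * It 144 j (1 / 50) 144 + 3 / 2 * It 48 j (1 / 50) 144)
    ≤ 1473 / 20 := by
  decide +kernel

private lemma f3_u14 : ∑ j ∈ Finset.Icc 4201 4500, (1 / 2 * It 144 j (1 / 50) 144 + 3 / 2 * It 48 j (1 / 50) 144)
    ≤ 2807 / 50 := by
  decide +kernel

private lemma f3_u15 : ∑ j ∈ Finset.Icc 4501 4800, (1 / 2 * It 144 j (1 / 50) 144 + 3 / 2 * It 48 j (1 / 50) 144)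
    ≤ 841 / 20 := by
  decide +kernel

private lemma f3_u16 : ∑ j ∈ Finset.Icc 4801 5100, (1 / 2 * It 144 j (1 / 50) 144 + 3 / 2 * It 48 j (1 / 50) 144)
    ≤ 3077 / 100 := by
  decide +kernel

private lemma f3_u17 : ∑ j ∈ Finset.Icc 5101 5400, (1 / 2 * It 144 j (1 / 50) 144 + 3 / 2 * It 48 j (1 / 50) 144)
    ≤ 109 / 5 := by
  decide +kernel

private lemma f3_u18 : ∑ j ∈ Finset.Icc 5401 5700, (1 / 2 * It 144 j (1 / 50) 144 + 3 / 2 * It 48 j (1 / 50) 144)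
    ≤ 739 / 50 := by
  decide +kernel

private lemma f3_u19 : ∑ j ∈ Finset.Icc 5701 6000, (1 / 2 * It 144 j (1 / 50) 144 + 3 / 2 * It 48 j (1 / 50) 144)
    ≤ 47 / 5 := by
  decide +kernel

private lemma f3_u20 : ∑ j ∈ Finset.Icc 6001 6300, (1 / 2 * It 144 j (1 / 50) 144 + 3 / 2 * It 48 j (1 / 50) 144)
    ≤ 543 / 100 := by
  decide +kernel

private lemma f3_u21 : ∑ j ∈ Finset.Icc 6301 6600, (1 / 2 * It 144 j (1 / 50) 144 + 3 / 2 * It 48 j (1 / 50) 144)
    ≤ 133 / 50 := by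
  decide +kernel

private lemma f3_u22 : ∑ j ∈ Finset.Icc 6601 6900, (1 / 2 * It 144 j (1 / 50) 144 + 3 / 2 * It 48 j (1 / 50) 144)
    ≤ 47 / 50 := by
  decide +kernel

private lemma f3_u23 : ∑ j ∈ Finset.Icc 6901 7200, (1 / 2 * It 144 j (1 / 50) 144 + 3 / 2 * It 48 j (1 / 50) 144)
    ≤ 13 / 100 := by
  decide +kernel

private lemma f3_split (f : ℕ → ℚ) (a b c : ℕ) (h1 : a ≤ b + 1) (h2 : b ≤ c) :
    ∑ j ∈ Finset.Icc a c, f j = ∑ j ∈ Finset.Icc a b, f j + ∑ j ∈ Finset.Icc (b + 1) c, f j := by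
  have e : ∀ u v : ℕ, Finset.Icc u v = Finset.Ico u (v + 1) := fun u v => by
    ext x
    simp only [Finset.mem_Icc, Finset.mem_Ico]
    omega
  rw [e, e, e, Finset.sum_Ico_consecutive f (by omega) (by omega)]

private lemma f3_U : ∑ j ∈ Finset.Icc 1 7200, (1 / 2 * It 144 j (1 / 50) 144 + 3 / 2 * It 48 j (1 / 50) 144)
    ≤ (1064496 / 25) + (198767 / 50) + (50668 / 25) + (31239 / 25) + (41993 / 50) + (59389 / 100) + (10882 / 25) + (32883 / 100) + (25499 / 100) + (19961 / 100) + (15653 / 100) + (3063 / 25) + (9541 / 100) + (1473 / 20) + (2807 / 50) + (841 / 20) + (3077 / 100) + (109 / 5) + (739 / 50) + (47 / 5) + (543 / 100) + (133 / 50) + (47 / 50) + (13 / 100) := by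
  rw [f3_split _ 1 300 7200 (by norm_num) (by norm_num)]
  rw [f3_split _ (300 + 1) 600 7200 (by norm_num) (by norm_num)]
  rw [f3_split _ (600 + 1) 900 7200 (by norm_num) (by norm_num)]
  rw [f3_split _ (900 + 1) 1200 7200 (by norm_num) (by norm_num)]
  rw [f3_split _ (1200 + 1) 1500 7200 (by norm_num) (by norm_num)]
  rw [f3_split _ (1500 + 1) 1800 7200 (by norm_num) (by norm_num)]
  rw [f3_split _ (1800 + 1) 2100 7200 (by norm_num) (by norm_num)]
  rw [f3_split _ (2100 + 1) 2400 7200 (by norm_num) (by norm_num)]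
  rw [f3_split _ (2400 + 1) 2700 7200 (by norm_num) (by norm_num)]
  rw [f3_split _ (2700 + 1) 3000 7200 (by norm_num) (by norm_num)]
  rw [f3_split _ (3000 + 1) 3300 7200 (by norm_num) (by norm_num)]
  rw [f3_split _ (3300 + 1) 3600 7200 (by norm_num) (by norm_num)]
  rw [f3_split _ (3600 + 1) 3900 7200 (by norm_num) (by norm_num)]
  rw [f3_split _ (3900 + 1) 4200 7200 (by norm_num) (by norm_num)]
  rw [f3_split _ (4200 + 1) 4500 7200 (by norm_num) (by norm_num)]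
  rw [f3_split _ (4500 + 1) 4800 7200 (by norm_num) (by norm_num)]
  rw [f3_split _ (4800 + 1) 5100 7200 (by norm_num) (by norm_num)]
  rw [f3_split _ (5100 + 1) 5400 7200 (by norm_num) (by norm_num)]
  rw [f3_split _ (5400 + 1) 5700 7200 (by norm_num) (by norm_num)]
  rw [f3_split _ (5700 + 1) 6000 7200 (by norm_num) (by norm_num)]
  rw [f3_split _ (6000 + 1) 6300 7200 (by norm_num) (by norm_num)]
  rw [f3_split _ (6300 + 1) 6600 7200 (by norm_num) (by norm_num)]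
  rw [f3_split _ (6600 + 1) 6900 7200 (by norm_num) (by norm_num)]
  have h0 := f3_u0
  have h1 := f3_u1
  have h2 := f3_u2
  have h3 := f3_u3
  have h4 := f3_u4
  have h5 := f3_u5
  have h6 := f3_u6
  have h7 := f3_u7
  have h8 := f3_u8
  have h9 := f3_u9
  have h10 := f3_u10
  have h11 := f3_u11
  have h12 := f3_u12
  have h13 := f3_u13
  have h14 := f3_u14
  have h15 := f3_u15
  have h16 := f3_u16
  have h17 := f3_u17
  have h18 := f3_u18
  have h19 := f3_u19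
  have h20 := f3_u20
  have h21 := f3_u21
  have h22 := f3_u22
  have h23 := f3_u23
  show _ ≤ _
  linarith

/-- T-F3 -/
theorem t_F3_numeric : St_F3_numeric := by
  have hA := f3_a
  have hU : LU ≤ _ := f3_U
  have hi := f3_i4
  unfold St_F3_numeric LA LB
  linarith

end Pool.Agent.Run7.h228.T
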