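import Pool.Agent.Run7.h851.T.Iface
import Pool.Agent.H337R2.Asym
import Pool.Agent.H336R2.HD.F6

/-! T-F46: F4 (small primes), F6 (superfactorials) (port of `Pool/Agent/Dim7/F346.lean`, helper228). -/

open Polynomial Pool.Agent.H337R2 Filter Topology Pool.Agent.Run7.h851.T

namespace Pool.Agent.Run7.h228.T

noncomputable section

open Pool.Agent.H336R2.HD (F6_F F6_mvt F6_sum)

/-- small primes: trivial exponents -/
theorem t_F4_small : St_F4_small := by
  intro ε hε
  filter_upwards [rpow_lim 145 (by norm_num) (ε / 165888) (by positivity),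
    theta_lim (1 / 50) (by norm_num) (ε / 9216) (by positivity), eventually_ge_atTop 1] with n h1 h2 hn
  have hn0 : (1 : ℝ) ≤ n := by exact_mod_cast hn
  have hM1 : (1 : ℝ) ≤ 144 * (n : ℝ) + 1 := by linarith
  have hlog0 : 0 ≤ Real.log (144 * (n : ℝ) + 1) := Real.log_nonneg hM1
  -- second sum
  have hS2 : ∑ p ∈ (Finset.range (n + 1)).filter (fun p : ℕ => p.Prime ∧ 50 * p ≤ n), 64 * Real.log (p : ℝ) ≤
      64 * Chebyshev.theta (1 / 50 * n) := by
    rw [← Finset.mul_sum]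
    apply mul_le_mul_of_nonneg_left _ (by norm_num)
    unfold Chebyshev.theta
    apply Finset.sum_le_sum_of_subset_of_nonneg
    · intro p hp
      rw [Finset.mem_filter] at hp
      rw [Finset.mem_filter, Finset.mem_Ioc]
      refine ⟨⟨hp.2.1.pos, ?_⟩, hp.2.1⟩
      rw [Nat.le_floor_iff (by positivity)]
      have : ((50 * p : ℕ) : ℝ) ≤ (n : ℝ) := by exact_mod_cast hp.2.2
      push_cast at this
      linarith
    · intro p hp _
      rw [Finset.mem_filter] at hp
      exact Real.log_nonneg (by exact_mod_cast hp.2.one_lt.le)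
  -- first sum
  have hcard : (((Finset.range (n + 1)).filter (fun p : ℕ => p.Prime ∧ p ^ 2 ≤ 144 * n)).card : ℝ) ≤
      (Nat.sqrt (144 * n) : ℝ) + 1 := by
    have hsub : (Finset.range (n + 1)).filter (fun p : ℕ => p.Prime ∧ p ^ 2 ≤ 144 * n) ⊆
        Finset.range (Nat.sqrt (144 * n) + 1) := by
      intro p hp
      rw [Finset.mem_filter] at hp
      rw [Finset.mem_range]
      have : p ≤ Nat.sqrt (144 * n) := Nat.le_sqrt'.2 hp.2.2
      omega
    have := Finset.card_le_card hsub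
    rw [Finset.card_range] at this
    exact_mod_cast this
  have hS1 : ∑ p ∈ (Finset.range (n + 1)).filter (fun p : ℕ => p.Prime ∧ p ^ 2 ≤ 144 * n),
        144 * Real.log (144 * (n : ℝ) + 1) ≤ ε / 144 * n := by
    rw [Finset.sum_const, nsmul_eq_mul]
    have h3 : Real.log (144 * (n : ℝ) + 1) ≤ (144 * (n : ℝ) + 1) ^ (1 / 4 : ℝ) / (1 / 4) :=
      Real.log_le_rpow_div (by positivity) (by norm_num)
    have h4 : ((Nat.sqrt (144 * n) : ℕ) : ℝ) + 1 ≤ 2 * (144 * (n : ℝ) + 1) ^ (1 / 2 : ℝ) := by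
      have h5 : ((Nat.sqrt (144 * n) : ℕ) : ℝ) ≤ Real.sqrt (144 * (n : ℝ) + 1) := by
        apply Real.le_sqrt_of_sq_le
        have := Nat.sqrt_le' (144 * n)
        exact_mod_cast (by omega : Nat.sqrt (144 * n) ^ 2 ≤ 144 * n + 1)
      rw [← Real.sqrt_eq_rpow]
      have h6 : 1 ≤ Real.sqrt (144 * (n : ℝ) + 1) := by
        rw [Real.one_le_sqrt]; exact hM1
      linarith
    have h5 : (144 * (n : ℝ) + 1) ^ (3 / 4 : ℝ) ≤ ε / 165888 * n := by
      refine le_trans ?_ h1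
      apply Real.rpow_le_rpow (by positivity) (by linarith) (by norm_num)
    have h6 : (144 * (n : ℝ) + 1) ^ (1 / 2 : ℝ) * (144 * (n : ℝ) + 1) ^ (1 / 4 : ℝ) = (144 * (n : ℝ) + 1) ^ (3 / 4 : ℝ) := by
      rw [← Real.rpow_add (by positivity)]; norm_num
    have h7 : 0 ≤ (144 * (n : ℝ) + 1) ^ (1 / 2 : ℝ) := by positivity
    have h8 : 0 ≤ (144 * (n : ℝ) + 1) ^ (1 / 4 : ℝ) := by positivity
    calc _ ≤ (2 * (144 * (n : ℝ) + 1) ^ (1 / 2 : ℝ)) * (144 * ((144 * (n : ℝ) + 1) ^ (1 / 4 : ℝ) / (1 / 4))) := by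
          apply mul_le_mul (hcard.trans h4) _ (by positivity) (by positivity)
          linarith
      _ = 1152 * ((144 * (n : ℝ) + 1) ^ (1 / 2 : ℝ) * (144 * (n : ℝ) + 1) ^ (1 / 4 : ℝ)) := by ring
      _ = 1152 * (144 * (n : ℝ) + 1) ^ (3 / 4 : ℝ) := by rw [h6]
      _ ≤ 1152 * (ε / 165888 * n) := mul_le_mul_of_nonneg_left h5 (by norm_num)
      _ = ε / 144 * n := by ring
  rw [abs_le] at h2
  have hT : 64 * Chebyshev.theta (1 / 50 * n) ≤ 64 * ((1 / 50 + ε / 9216) * n) := by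
    have := h2.2
    linarith
  have hsum := add_le_add hS1 (hS2.trans hT)
  have hn6 : 0 ≤ 72 * (n : ℝ) := by positivity
  calc _ ≤ 72 * (n : ℝ) * (ε / 144 * n + 64 * ((1 / 50 + ε / 9216) * n)) := mul_le_mul_of_nonneg_left hsum hn6
    _ = (2304 / 25 + ε) * (n : ℝ) ^ 2 := by ring

/-- lower bound for the superfactorials -/
theorem t_F6_superfac : St_F6_superfac := by
  intro ε hε
  have hlog : Tendsto (fun x : ℝ => Real.log x / x) atTop (𝓝 0) := by
    have := Real.isLittleO_log_id_atTop.tendsto_div_nhds_zero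
    simpa using this
  have h12 : Tendsto (fun n : ℕ => (144 * (n : ℝ))) atTop atTop :=
    tendsto_natCast_atTop_atTop.const_mul_atTop (by norm_num)
  have hl2 := (hlog.comp h12).eventually (gt_mem_nhds (show (0 : ℝ) < ε / 4200000 by positivity))
  have hl3 : ∀ᶠ n : ℕ in atTop, 5 / ε < (n : ℝ) :=
    tendsto_natCast_atTop_atTop.eventually (eventually_gt_atTop _)
  filter_upwards [hl2, hl3, eventually_ge_atTop 3] with n h1 h2 hn
  have hn' : (3 : ℝ) ≤ n := by exact_mod_cast hn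
  have hn0 : (0 : ℝ) < n := by linarith
  obtain ⟨M, hM⟩ : ∃ M, 72 * n - 72 = M + 2 := ⟨72 * n - 74, by omega⟩
  obtain ⟨M', hM'⟩ : ∃ M', 24 * n - 24 = M' + 2 := ⟨24 * n - 26, by omega⟩
  have hMr : (M : ℝ) = 72 * n - 74 := by
    have h3 : M + 74 = 72 * n := by omega
    have h4 : ((M + 74 : ℕ) : ℝ) = ((72 * n : ℕ) : ℝ) := by rw [h3]
    push_cast at h4
    linarith
  have hMr' : (M' : ℝ) = 24 * n - 26 := by
    have h3 : M' + 26 = 24 * n := by omega
    have h4 : ((M' + 26 : ℕ) : ℝ) = ((24 * n : ℕ) : ℝ) := by rw [h3]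
    push_cast at h4
    linarith
  have h3 := F6_sum M
  have h3' := F6_sum M'
  rw [← hM] at h3
  rw [← hM'] at h3'
  have h4 : (2 * (M : ℝ) + 1) = 144 * n - 147 := by
    rw [hMr]
    ring
  have h4' : (2 * (M' : ℝ) + 1) = 48 * n - 51 := by
    rw [hMr']
    ring
  rw [h4] at h3
  rw [h4'] at h3'
  have h5 := F6_mvt (a := 144 * (n : ℝ) - 147) (b := 144 * n) (by linarith) (by linarith)
  have h5' := F6_mvt (a := 48 * (n : ℝ) - 51) (b := 48 * n) (by linarith) (by linarith)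
  have h6 : (144 * (n : ℝ) - (144 * n - 147)) = 147 := by ring
  have h6' : (48 * (n : ℝ) - (48 * n - 51)) = 51 := by ring
  rw [h6] at h5
  rw [h6'] at h5'
  have l144 : Real.log 144 = 4 * Real.log 2 + 2 * Real.log 3 := by
    rw [show (144 : ℝ) = 2 ^ 4 * 3 ^ 2 by norm_num, Real.log_mul (by norm_num) (by norm_num), Real.log_pow,
      Real.log_pow]
    norm_num
  have l48 : Real.log 48 = 4 * Real.log 2 + Real.log 3 := by
    rw [show (48 : ℝ) = 2 ^ 4 * 3 by norm_num, Real.log_mul (by norm_num) (by norm_num), Real.log_pow]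
    norm_num
  have h7 : F6_F (144 * n) = 10368 * (n : ℝ) ^ 2 * Real.log n
      + (41472 * Real.log 2 + 20736 * Real.log 3 - 15552) * (n : ℝ) ^ 2 := by
    unfold F6_F
    rw [Real.log_mul (by norm_num) hn0.ne', l144]
    ring
  have h7' : F6_F (48 * n) = 1152 * (n : ℝ) ^ 2 * Real.log n
      + (4608 * Real.log 2 + 1152 * Real.log 3 - 1728) * (n : ℝ) ^ 2 := by
    unfold F6_F
    rw [Real.log_mul (by norm_num) hn0.ne', l48]
    ring
  have h8 : Real.log (144 * n) < ε / 4200000 * (144 * n) := by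
    have h9 : Real.log (144 * (n : ℝ)) / (144 * n) < ε / 4200000 := h1
    rwa [div_lt_iff₀ (by positivity)] at h9
  have h8' : Real.log (48 * n) ≤ ε / 4200000 * (144 * n) := by
    refine le_trans (Real.log_le_log (by positivity) ?_) h8.le
    linarith
  have h10 : (144 * (n : ℝ)) * Real.log (144 * n) ≤ (144 * (n : ℝ)) * (ε / 4200000 * (144 * n)) :=
    mul_le_mul_of_nonneg_left h8.le (by positivity)
  have h10' : (48 * (n : ℝ)) * Real.log (48 * n) ≤ (48 * (n : ℝ)) * (ε / 4200000 * (144 * n)) :=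
    mul_le_mul_of_nonneg_left h8' (by positivity)
  have h11 : 5 / 2 ≤ ε / 2 * (n : ℝ) ^ 2 := by
    rw [div_lt_iff₀ hε] at h2
    nlinarith [mul_pos hε hn0]
  have h12 : 0 ≤ ε * (n : ℝ) ^ 2 := by positivity
  nlinarith [h3, h5, h7, h10, h11, h3', h5', h7', h10', h12]

end

end Pool.Agent.Run7.h228.T
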